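import Mathlib

/-!
F1: a partition with Frobenius coordinates `(a_i | b_i)`, `b_i ≥ a_i + 1` for all `i`, and even sum
is graphical.
-/

set_option autoImplicit false
set_option linter.unusedSectionVars false

open Finset

namespace Pool.Agent.H11.TM

section graph

variable {V : Type*} [Fintype V]

open Classical in
/-- degree of a vertex, with classical decidability -/
noncomputable def dg (G : SimpleGraph V) (z : V) : ℕ :=
  (univ.filter (fun w => G.Adj z w)).card

/-- toggle the pair `x, y` -/
def tog (G : SimpleGraph V) (x y : V) : SimpleGraph V where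
  Adj u w := u ≠ w ∧ (G.Adj u w ↔ ¬ ((u = x ∧ w = y) ∨ (u = y ∧ w = x)))
  symm := ⟨by
    intro u w h
    refine ⟨h.1.symm, ?_⟩
    rw [G.adj_comm w u, h.2]
    tauto⟩
  loopless := ⟨fun u h => h.1 rfl⟩

theorem tog_adj_ne (G : SimpleGraph V) {x y u w : V}
    (h : ¬ ((u = x ∧ w = y) ∨ (u = y ∧ w = x))) : (tog G x y).Adj u w ↔ G.Adj u w := by
  constructor
  · intro h2
    exact h2.2.2 h
  · intro h2
    exact ⟨h2.ne, ⟨fun _ => h, fun _ => h2⟩⟩

theorem tog_adj_self (G : SimpleGraph V) {x y : V} (hxy : x ≠ y) :
    (tog G x y).Adj x y ↔ ¬ G.Adj x y := by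
  constructor
  · intro h2 h3
    exact h2.2.1 h3 (Or.inl ⟨rfl, rfl⟩)
  · intro h2
    exact ⟨hxy, ⟨fun h => absurd h h2, fun h => absurd (Or.inl ⟨rfl, rfl⟩) h⟩⟩

theorem tog_comm (G : SimpleGraph V) (x y : V) : tog G x y = tog G y x := by
  ext u w
  change (u ≠ w ∧ _) ↔ (u ≠ w ∧ _)
  tauto

theorem dg_tog_add_left (G : SimpleGraph V) {x y : V} (hxy : x ≠ y) (hn : ¬ G.Adj x y) :
    dg (tog G x y) x = dg G x + 1 := by
  classical
  unfold dg
  have : (univ.filter (fun w => (tog G x y).Adj x w))
      = insert y (univ.filter (fun w => G.Adj x w)) := by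
    ext w
    simp only [mem_filter, mem_univ, true_and, mem_insert]
    by_cases hw : w = y
    · subst hw
      simp [tog_adj_self G hxy, hn]
    · rw [tog_adj_ne G (by rintro (⟨-, h⟩ | ⟨h, -⟩); exacts [hw h, hxy h])]
      simp [hw]
  rw [this, card_insert_of_notMem (by simp [hn])]

theorem dg_tog_other (G : SimpleGraph V) {x y z : V} (hx : z ≠ x) (hy : z ≠ y) :
    dg (tog G x y) z = dg G z := by
  classical
  unfold dg
  congr 1
  ext w
  simp only [mem_filter, mem_univ, true_and]
  exact tog_adj_ne G (by rintro (⟨h, -⟩ | ⟨h, -⟩); exacts [hx h, hy h])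

open Classical in
theorem dg_tog_add (G : SimpleGraph V) {x y : V} (hxy : x ≠ y) (hn : ¬ G.Adj x y) (z : V) :
    dg (tog G x y) z = dg G z + (if z = x then 1 else 0) + (if z = y then 1 else 0) := by
  by_cases h1 : z = x
  · subst h1
    rw [dg_tog_add_left G hxy hn]
    simp [hxy]
  · by_cases h2 : z = y
    · subst h2
      rw [tog_comm, dg_tog_add_left G (Ne.symm hxy) (fun h => hn h.symm)]
      simp [h1]
    · rw [dg_tog_other G h1 h2]
      simp [h1, h2]

theorem tog_tog (G : SimpleGraph V) {x y : V} (hxy : x ≠ y) : tog (tog G x y) x y = G := by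
  ext u w
  by_cases h : (u = x ∧ w = y) ∨ (u = y ∧ w = x)
  · rcases h with ⟨rfl, rfl⟩ | ⟨rfl, rfl⟩
    · rw [tog_adj_self _ hxy, tog_adj_self _ hxy]
      tauto
    · rw [SimpleGraph.adj_comm, tog_adj_self _ hxy, tog_adj_self _ hxy, SimpleGraph.adj_comm]
      tauto
  · rw [tog_adj_ne _ h, tog_adj_ne _ h]

open Classical in
theorem dg_tog_del (G : SimpleGraph V) {x y : V} (ha : G.Adj x y) (z : V) :
    dg (tog G x y) z + (if z = x then 1 else 0) + (if z = y then 1 else 0) = dg G z := by
  have hxy := ha.ne
  have h := dg_tog_add (tog G x y) hxy (by rw [tog_adj_self G hxy]; exact fun h => h ha) z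
  rw [tog_tog G hxy] at h
  omega

/-- the neighbourhood of a vertex of strictly largest degree is not a clique -/
theorem exists_nonadj (G : SimpleGraph V) (v : V) (hv : 0 < dg G v)
    (h : ∀ x, x ≠ v → dg G x < dg G v) :
    ∃ x y, x ≠ y ∧ G.Adj v x ∧ G.Adj v y ∧ ¬ G.Adj x y := by
  classical
  by_contra hcon
  push Not at hcon
  unfold dg at hv
  obtain ⟨x, hx⟩ := card_pos.mp hv
  simp only [mem_filter, mem_univ, true_and] at hx
  have hlt := h x hx.ne'
  have hsub : insert v ((univ.filter (fun w => G.Adj v w)).erase x)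
      ⊆ univ.filter (fun w => G.Adj x w) := by
    intro w hw
    simp only [mem_insert, mem_erase, mem_filter, mem_univ, true_and] at hw ⊢
    rcases hw with rfl | ⟨hw1, hw2⟩
    · exact hx.symm
    · exact hcon x w (Ne.symm hw1) hx hw2
  have hc := card_le_card hsub
  rw [card_insert_of_notMem (by simp), card_erase_of_mem (by simp [hx])] at hc
  unfold dg at hlt
  omega

open Classical in
theorem lower2 (G : SimpleGraph V) (v : V) (hv : 0 < dg G v)
    (h : ∀ x, x ≠ v → dg G x < dg G v) :
    ∃ G' : SimpleGraph V, ∀ z, dg G' z + (if z = v then 2 else 0) = dg G z := by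
  obtain ⟨x, y, hxy, hx, hy, hn⟩ := exists_nonadj G v hv h
  have h1 : (tog G v x).Adj v y := by
    rw [tog_adj_ne G (by rintro (⟨-, h⟩ | ⟨h, -⟩); exacts [hxy h.symm, hx.ne h])]
    exact hy
  have h2 : ¬ (tog (tog G v x) v y).Adj x y := by
    rw [tog_adj_ne _ (by rintro (⟨h, -⟩ | ⟨h, -⟩); exacts [hx.ne h.symm, hxy h]),
      tog_adj_ne _ (by rintro (⟨h, -⟩ | ⟨-, h⟩); exacts [hx.ne h.symm, hy.ne h.symm])]
    exact hn
  refine ⟨tog (tog (tog G v x) v y) x y, fun z => ?_⟩
  have e1 := dg_tog_del G hx z
  have e2 := dg_tog_del (tog G v x) h1 z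
  have e3 := dg_tog_add (tog (tog G v x) v y) hxy h2 z
  split_ifs at * <;> omega

theorem lower (v : V) (t m : ℕ) : ∀ G : SimpleGraph V, dg G v = t + 2 * m →
    (∀ x, x ≠ v → dg G x ≤ t) →
    ∃ G' : SimpleGraph V, dg G' v = t ∧ ∀ x, x ≠ v → dg G' x = dg G x := by
  classical
  induction m with
  | zero => intro G hv _; exact ⟨G, by simpa using hv, fun _ _ => rfl⟩
  | succ m ih =>
    intro G hv h
    obtain ⟨G', hG'⟩ := lower2 G v (by omega) (fun x hx => by have := h x hx; omega)
    have h1 : dg G' v = t + 2 * m := by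
      have := hG' v
      simp only [if_true] at this
      omega
    have h2 : ∀ x, x ≠ v → dg G' x = dg G x := by
      intro x hx
      have := hG' x
      simpa [hx] using this
    obtain ⟨G'', h3, h4⟩ := ih G' h1 (fun x hx => by rw [h2 x hx]; exact h x hx)
    exact ⟨G'', h3, fun x hx => by rw [h4 x hx, h2 x hx]⟩

/-- join `v` to all other vertices -/
def star (G : SimpleGraph V) (v : V) : SimpleGraph V where
  Adj u w := u ≠ w ∧ (G.Adj u w ∨ u = v ∨ w = v)
  symm := ⟨by
    intro u w h
    refine ⟨h.1.symm, ?_⟩
    rw [G.adj_comm w u]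
    tauto⟩
  loopless := ⟨fun u h => h.1 rfl⟩

theorem star_adj (G : SimpleGraph V) (v u w : V) :
    (star G v).Adj u w ↔ u ≠ w ∧ (G.Adj u w ∨ u = v ∨ w = v) := Iff.rfl

theorem dg_star_self (G : SimpleGraph V) (v : V) : dg (star G v) v + 1 = Fintype.card V := by
  classical
  unfold dg
  have : (univ.filter (fun w => (star G v).Adj v w)) = univ.erase v := by
    ext w
    simp [star_adj, eq_comm]
  rw [this, card_erase_of_mem (mem_univ v), card_univ]
  have : 0 < Fintype.card V := Fintype.card_pos_iff.mpr ⟨v⟩
  omega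

open Classical in
theorem dg_star_other (G : SimpleGraph V) (v x : V) (hx : x ≠ v) :
    dg (star G v) x = dg G x + (if G.Adj x v then 0 else 1) := by
  unfold dg
  by_cases h : G.Adj x v
  · rw [if_pos h, add_zero]
    congr 1
    ext w
    simp only [mem_filter, mem_univ, true_and, star_adj]
    constructor
    · rintro ⟨h1, h2 | h2 | h2⟩
      · exact h2
      · exact absurd h2 hx
      · rw [h2]; exact h
    · intro h2
      exact ⟨h2.ne, Or.inl h2⟩
  · rw [if_neg h]
    have : (univ.filter (fun w => (star G v).Adj x w))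
        = insert v (univ.filter (fun w => G.Adj x w)) := by
      ext w
      simp only [mem_filter, mem_univ, true_and, star_adj, mem_insert]
      constructor
      · rintro ⟨h1, h2 | h2 | h2⟩
        · exact Or.inr h2
        · exact absurd h2 hx
        · exact Or.inl h2
      · rintro (h2 | h2)
        · exact ⟨by rw [h2]; exact hx, Or.inr (Or.inr h2)⟩
        · exact ⟨h2.ne, Or.inl h2⟩
    rw [this, card_insert_of_notMem (by simp [h])]

/-- the step at a vertex -/
theorem step (G : SimpleGraph V) (v : V) (a b e : ℕ) (he : dg G v = e) (he1 : e ≤ 1)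
    (hc : Fintype.card V = b + 1) (hab : a + 1 ≤ b) (hpar : Even (b + a + 1 + e))
    (hle : ∀ x, x ≠ v → dg G x ≤ a) :
    ∃ K : SimpleGraph V, dg K v = a + 1 ∧ ∀ x, x ≠ v → dg K x = dg G x + 1 := by
  classical
  have hsv : dg (star G v) v = b := by
    have := dg_star_self G v
    omega
  obtain ⟨r, hr⟩ := hpar
  rcases Nat.lt_or_ge e 1 with h0 | h1
  · -- v is isolated
    have he0 : e = 0 := by omega
    have hna : ∀ x, ¬ G.Adj x v := by
      intro x hx
      have h2 : 0 < dg G v := by
        unfold dg
        exact card_pos.mpr ⟨x, by simpa using hx.symm⟩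
      omega
    have hso : ∀ x, x ≠ v → dg (star G v) x = dg G x + 1 := by
      intro x hx
      rw [dg_star_other G v x hx, if_neg (hna x)]
    obtain ⟨K, hK1, hK2⟩ := lower v (a + 1) (r - (a + 1)) (star G v) (by omega)
      (fun x hx => by rw [hso x hx]; have := hle x hx; omega)
    exact ⟨K, hK1, fun x hx => by rw [hK2 x hx, hso x hx]⟩
  · have he1' : e = 1 := by omega
    -- the neighbour u of v
    have h2 : (univ.filter (fun w => G.Adj v w)).card = 1 := by
      have := he
      unfold dg at this
      rw [← he1', ← this]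
    obtain ⟨u, hu⟩ := card_eq_one.mp h2
    have hadj : ∀ x, G.Adj v x ↔ x = u := by
      intro x
      have : x ∈ univ.filter (fun w => G.Adj v w) ↔ x ∈ ({u} : Finset V) := by rw [hu]
      simpa using this
    have hvu : G.Adj v u := (hadj u).2 rfl
    have huv : u ≠ v := hvu.ne'
    have hso : ∀ x, x ≠ v → dg (star G v) x = dg G x + (if x = u then 0 else 1) := by
      intro x hx
      rw [dg_star_other G v x hx]
      congr 1
      by_cases hxu : x = u
      · rw [if_pos hxu, if_pos]
        rw [hxu]; exact hvu.symm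
      · rw [if_neg hxu, if_neg]
        intro h; exact hxu ((hadj x).1 h.symm)
    -- a vertex x, not u, not v, not adjacent to u
    have hex : ∃ x, x ≠ u ∧ x ≠ v ∧ ¬ (star G v).Adj x u := by
      by_contra hcon
      push Not at hcon
      have hsub : (univ : Finset V).erase u ⊆ univ.filter (fun w => (star G v).Adj u w) := by
        intro w hw
        simp only [mem_erase, mem_univ, and_true] at hw
        simp only [mem_filter, mem_univ, true_and]
        by_cases hwv : w = v
        · rw [hwv, star_adj]
          exact ⟨huv, Or.inr (Or.inr rfl)⟩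
        · exact (hcon w hw hwv).symm
      have hcd := card_le_card hsub
      rw [card_erase_of_mem (mem_univ u), card_univ, hc] at hcd
      have h3 : dg (star G v) u = dg G u := by rw [hso u huv]; simp
      unfold dg at h3
      rw [h3] at hcd
      have h4 := hle u huv
      unfold dg at h4
      omega
    obtain ⟨x, hxu, hxv, hxn⟩ := hex
    have a1 : (star G v).Adj v x := by rw [star_adj]; exact ⟨Ne.symm hxv, Or.inr (Or.inl rfl)⟩
    have a2 : ¬ (tog (star G v) v x).Adj x u := by
      rw [tog_adj_ne _ (by rintro (⟨h, -⟩ | ⟨-, h⟩); exacts [hxv h, huv h])]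
      exact hxn
    have hfin : ∀ z, dg (tog (tog (star G v) v x) x u) z + (if z = v then 1 else 0)
        = dg (star G v) z + (if z = u then 1 else 0) := by
      intro z
      have e1 := dg_tog_del (star G v) a1 z
      have e2 := dg_tog_add (tog (star G v) v x) hxu a2 z
      split_ifs at * <;> omega
    have hv' : dg (tog (tog (star G v) v x) x u) v + 1 = b := by
      have := hfin v
      rw [if_pos rfl, if_neg (Ne.symm huv), hsv] at this
      omega
    have ho' : ∀ z, z ≠ v → dg (tog (tog (star G v) v x) x u) z = dg G z + 1 := by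
      intro z hz
      have h5 := hfin z
      rw [if_neg hz, hso z hz] at h5
      by_cases hzu : z = u
      · simp only [hzu, if_true] at h5 ⊢
        omega
      · simp only [hzu, if_false] at h5
        omega
    obtain ⟨K, hK1, hK2⟩ := lower v (a + 1) (r - (a + 2)) (tog (tog (star G v) v x) x u)
      (by omega) (fun z hz => by rw [ho' z hz]; have := hle z hz; omega)
    exact ⟨K, hK1, fun z hz => by rw [hK2 z hz, ho' z hz]⟩

/-- add isolated vertices -/
def padG (W : Type*) (G : SimpleGraph V) : SimpleGraph (V ⊕ W) where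
  Adj u w := ∃ x y, u = Sum.inl x ∧ w = Sum.inl y ∧ G.Adj x y
  symm := ⟨by
    rintro u w ⟨x, y, h1, h2, h3⟩
    exact ⟨y, x, h2, h1, h3.symm⟩⟩
  loopless := ⟨by
    rintro u ⟨x, y, h1, h2, h3⟩
    rw [h1] at h2
    exact h3.ne (Sum.inl_injective h2)⟩

theorem padG_adj (W : Type*) (G : SimpleGraph V) (u w : V ⊕ W) :
    (padG W G).Adj u w ↔ ∃ x y, u = Sum.inl x ∧ w = Sum.inl y ∧ G.Adj x y := Iff.rfl

theorem dg_padG_inl {W : Type*} [Fintype W] (G : SimpleGraph V) (x : V) :
    dg (padG W G) (Sum.inl x) = dg G x := by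
  classical
  unfold dg
  have : (univ.filter (fun w => (padG W G).Adj (Sum.inl x) w))
      = (univ.filter (fun w => G.Adj x w)).map ⟨Sum.inl, Sum.inl_injective⟩ := by
    ext w
    simp only [mem_filter, mem_univ, true_and, mem_map, padG_adj]
    constructor
    · rintro ⟨u, u', h1, h2, h⟩
      have : x = u := Sum.inl_injective h1
      subst this
      exact ⟨u', h, h2.symm⟩
    · rintro ⟨u', h, h2⟩
      exact ⟨x, u', rfl, h2.symm, h⟩
  rw [this, card_map]

theorem dg_padG_inr {W : Type*} [Fintype W] (G : SimpleGraph V) (y : W) :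
    dg (padG W G) (Sum.inr y) = 0 := by
  classical
  unfold dg
  rw [card_eq_zero, filter_eq_empty_iff]
  intro w _ h
  rw [padG_adj] at h
  obtain ⟨u, u', h1, -, -⟩ := h
  cases h1

end graph

/-- `s` is the multiset of degrees of a finite simple graph -/
def Real (s : Multiset ℕ) : Prop :=
  ∃ (V : Type) (_ : Fintype V) (G : SimpleGraph V),
    (univ : Finset V).val.map (fun v => dg G v) = s

theorem real_pad {s : Multiset ℕ} (h : Real s) (k : ℕ) :
    Real (s + Multiset.replicate k 0) := by
  obtain ⟨V, i, G, hG⟩ := h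
  refine ⟨V ⊕ Fin k, inferInstance, padG (Fin k) G, ?_⟩
  rw [← Finset.univ_disjSum_univ, Finset.val_disjSum, Multiset.disjSum, Multiset.map_add,
    Multiset.map_map, Multiset.map_map]
  congr 1
  · rw [← hG]
    apply Multiset.map_congr rfl
    intro x _
    exact dg_padG_inl G x
  · have h0 : ∀ y ∈ (univ : Finset (Fin k)).val,
        ((fun v => dg (padG (Fin k) G) v) ∘ Sum.inr) y = (fun _ => 0) y :=
      fun y _ => dg_padG_inr G y
    rw [Multiset.map_congr rfl h0, Multiset.map_const', Finset.card_val, Finset.card_univ,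
      Fintype.card_fin]

theorem step_real {e a b : ℕ} {t : Multiset ℕ} (h : Real (e ::ₘ t)) (he : e ≤ 1)
    (hb : Multiset.card t = b) (hle : ∀ x ∈ t, x ≤ a) (hab : a + 1 ≤ b)
    (hpar : Even (b + a + 1 + e)) : Real ((a + 1) ::ₘ t.map (· + 1)) := by
  classical
  obtain ⟨V, i, G, hG⟩ := h
  have hmem : e ∈ (univ : Finset V).val.map (fun v => dg G v) := by
    rw [hG]; exact Multiset.mem_cons_self e t
  obtain ⟨v, -, hv⟩ := Multiset.mem_map.mp hmem
  have huniv : (univ : Finset V).val = v ::ₘ ((univ : Finset V).erase v).val := by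
    rw [Finset.erase_val, Multiset.cons_erase]
    exact Finset.mem_univ v
  have ht : ((univ : Finset V).erase v).val.map (fun v => dg G v) = t := by
    rw [huniv, Multiset.map_cons, hv] at hG
    exact (Multiset.cons_inj_right e).mp hG
  have hcard : Fintype.card V = b + 1 := by
    rw [← Finset.card_univ, ← Finset.card_val, ← Multiset.card_map (fun v => dg G v), hG,
      Multiset.card_cons, hb]
  obtain ⟨K, hK1, hK2⟩ := step G v a b e hv he hcard hab hpar (by
    intro x hx
    apply hle
    rw [← ht]
    exact Multiset.mem_map_of_mem (fun v => dg G v)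
      (show x ∈ ((univ : Finset V).erase v).val from Finset.mem_erase.mpr ⟨hx, mem_univ x⟩))
  refine ⟨V, i, K, ?_⟩
  rw [huniv, Multiset.map_cons, hK1, ← ht, Multiset.map_map]
  congr 1
  apply Multiset.map_congr rfl
  intro x hx
  exact hK2 x (Finset.mem_erase.mp (show x ∈ (univ : Finset V).erase v from hx)).1

/-- the partition with Frobenius coordinates `L` -/
def fr : List (ℕ × ℕ) → Multiset ℕ
  | [] => 0
  | p :: L => (p.1 + 1) ::ₘ
      ((fr L + Multiset.replicate (p.2 - Multiset.card (fr L)) 0).map (· + 1))

/-- strictly decreasing coordinates -/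
def Frob (L : List (ℕ × ℕ)) : Prop := L.Pairwise (fun p q => q.1 < p.1 ∧ q.2 < p.2)

theorem fr_cons (p : ℕ × ℕ) (L : List (ℕ × ℕ)) : fr (p :: L) = (p.1 + 1) ::ₘ
      ((fr L + Multiset.replicate (p.2 - Multiset.card (fr L)) 0).map (· + 1)) := rfl

theorem card_fr (p : ℕ × ℕ) (L : List (ℕ × ℕ)) (h : Frob (p :: L)) :
    Multiset.card (fr (p :: L)) = p.2 + 1 := by
  induction L generalizing p with
  | nil => simp [fr]
  | cons q L ih =>
    have h1 : Frob (q :: L) := (List.pairwise_cons.mp h).2
    have h2 := (List.pairwise_cons.mp h).1 q (by simp)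
    rw [fr_cons, Multiset.card_cons, Multiset.card_map, Multiset.card_add,
      Multiset.card_replicate, ih q h1]
    omega

theorem card_fr_le (p : ℕ × ℕ) (L : List (ℕ × ℕ)) (h : Frob (p :: L)) :
    Multiset.card (fr L) ≤ p.2 := by
  cases L with
  | nil => simp [fr]
  | cons q L =>
    have h1 : Frob (q :: L) := (List.pairwise_cons.mp h).2
    have h2 := (List.pairwise_cons.mp h).1 q (by simp)
    rw [card_fr q L h1]
    omega

theorem le_of_mem_fr (p : ℕ × ℕ) (L : List (ℕ × ℕ)) (h : Frob (p :: L)) :
    ∀ x ∈ fr (p :: L), x ≤ p.1 + 1 := by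
  induction L generalizing p with
  | nil =>
    intro x hx
    rw [fr_cons, Multiset.mem_cons, Multiset.mem_map] at hx
    rcases hx with rfl | ⟨y, hy, rfl⟩
    · rfl
    · rw [Multiset.mem_add] at hy
      rcases hy with hy | hy
      · simp [fr] at hy
      · rw [Multiset.eq_of_mem_replicate hy]; omega
  | cons q L ih =>
    have h1 : Frob (q :: L) := (List.pairwise_cons.mp h).2
    have h2 := (List.pairwise_cons.mp h).1 q (by simp)
    intro x hx
    rw [fr_cons, Multiset.mem_cons, Multiset.mem_map] at hx
    rcases hx with rfl | ⟨y, hy, rfl⟩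
    · rfl
    · rw [Multiset.mem_add] at hy
      rcases hy with hy | hy
      · have := ih q h1 y hy
        omega
      · rw [Multiset.eq_of_mem_replicate hy]; omega

/-- the part of the partition after removing the first hook, bounded by the first arm -/
theorem le_of_mem_tail (p : ℕ × ℕ) (L : List (ℕ × ℕ)) (h : Frob (p :: L)) :
    ∀ x ∈ fr L, x ≤ p.1 := by
  cases L with
  | nil => intro x hx; simp [fr] at hx
  | cons q L =>
    have h1 : Frob (q :: L) := (List.pairwise_cons.mp h).2
    have h2 := (List.pairwise_cons.mp h).1 q (by simp)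
    intro x hx
    have := le_of_mem_fr q L h1 x hx
    omega

theorem sum_fr_cons (p : ℕ × ℕ) (L : List (ℕ × ℕ)) (h : Frob (p :: L)) :
    (fr (p :: L)).sum = p.1 + p.2 + 1 + (fr L).sum := by
  have hle := card_fr_le p L h
  rw [fr_cons, Multiset.sum_cons, Multiset.sum_map_add, Multiset.map_id', Multiset.sum_add,
    Multiset.sum_replicate, Multiset.map_const', Multiset.sum_replicate, Multiset.card_add,
    Multiset.card_replicate]
  simp only [smul_eq_mul]
  omega

theorem sum_fr (L : List (ℕ × ℕ)) (h : Frob L) :
    (fr L).sum = (L.map (fun p => p.1 + p.2 + 1)).sum := by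
  induction L with
  | nil => simp [fr]
  | cons p L ih =>
    rw [sum_fr_cons p L h, ih (List.pairwise_cons.mp h).2, List.map_cons, List.sum_cons]

theorem real_zero : Real 0 := ⟨Fin 0, inferInstance, ⊥, by simp⟩

/-- **F1** -/
theorem f1 (L : List (ℕ × ℕ)) (h : Frob L) (hb : ∀ p ∈ L, p.1 + 1 ≤ p.2)
    (he : Even (fr L).sum) : Real (fr L) := by
  obtain ⟨n, hn⟩ : ∃ n, L.length = n := ⟨_, rfl⟩
  induction n generalizing L with
  | zero =>
    rw [List.length_eq_zero_iff] at hn
    subst hn
    exact real_zero
  | succ n ih =>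
    cases L with
    | nil => exact real_zero
    | cons p L =>
      have h1 : Frob L := (List.pairwise_cons.mp h).2
      have hlen : L.length = n := by simpa using hn
      have hsum := sum_fr_cons p L h
      have hcle := card_fr_le p L h
      have hcard : Multiset.card
          (fr L + Multiset.replicate (p.2 - Multiset.card (fr L)) 0) = p.2 := by
        rw [Multiset.card_add, Multiset.card_replicate]
        omega
      have hmem : ∀ x ∈ fr L + Multiset.replicate (p.2 - Multiset.card (fr L)) 0, x ≤ p.1 := by
        intro x hx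
        rw [Multiset.mem_add] at hx
        rcases hx with hx | hx
        · exact le_of_mem_tail p L h x hx
        · rw [Multiset.eq_of_mem_replicate hx]; omega
      have hp : p.1 + 1 ≤ p.2 := hb p (by simp)
      rw [fr_cons]
      rcases Nat.even_or_odd (fr L).sum with hev | hodd
      · have hR : Real (fr L) := ih L h1 (fun q hq => hb q (by simp [hq])) hev hlen
        have hR2 := real_pad (real_pad hR (p.2 - Multiset.card (fr L))) 1
        have : fr L + Multiset.replicate (p.2 - Multiset.card (fr L)) 0 + Multiset.replicate 1 0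
            = 0 ::ₘ (fr L + Multiset.replicate (p.2 - Multiset.card (fr L)) 0) := by
          rw [Multiset.replicate_one, add_comm, Multiset.singleton_add]
        rw [this] at hR2
        refine step_real hR2 (by omega) hcard hmem hp ?_
        rw [hsum] at he
        obtain ⟨u, hu⟩ := he
        obtain ⟨w, hw⟩ := hev
        exact ⟨u - w, by omega⟩
      · cases L with
        | nil => simp [fr] at hodd
        | cons q L =>
          have hcq := card_fr_le q L h1
          have h2 : Frob ((q.1, q.2 + 1) :: L) := by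
            refine List.pairwise_cons.mpr ⟨?_, (List.pairwise_cons.mp h1).2⟩
            intro r hr
            have := (List.pairwise_cons.mp h1).1 r hr
            exact ⟨this.1, by have := this.2; simp only; omega⟩
          have hfr : fr ((q.1, q.2 + 1) :: L) = 1 ::ₘ fr (q :: L) := by
            rw [fr_cons, fr_cons]
            simp only
            rw [show q.2 + 1 - Multiset.card (fr L) = (q.2 - Multiset.card (fr L)) + 1 by omega,
              Multiset.replicate_succ, Multiset.add_cons, Multiset.map_cons, Multiset.cons_swap]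
          have hev2 : Even (fr ((q.1, q.2 + 1) :: L)).sum := by
            rw [hfr, Multiset.sum_cons]
            obtain ⟨w, hw⟩ := hodd
            exact ⟨w + 1, by omega⟩
          have hR : Real (1 ::ₘ fr (q :: L)) := by
            rw [← hfr]
            refine ih _ h2 ?_ hev2 (by simpa using hlen)
            intro r hr
            rcases List.mem_cons.mp hr with rfl | hr
            · have := hb q (by simp)
              simp only
              omega
            · exact hb r (by simp [hr])
          have hR2 := real_pad hR (p.2 - Multiset.card (fr (q :: L)))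
          rw [Multiset.cons_add] at hR2
          refine step_real hR2 (le_refl 1) hcard hmem hp ?_
          rw [hsum] at he
          obtain ⟨u, hu⟩ := he
          obtain ⟨w, hw⟩ := hodd
          exact ⟨u - w, by omega⟩

end Pool.Agent.H11.TM
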